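import Pool.Agent.W711.CR.Stm

/-!
# CR-L: an isomorphism of group algebras compatible with involution and trace gives an
isomorphism of the group von Neumann algebras
-/

set_option autoImplicit false

namespace Pool.Agent.W194.CR

open Pool.Agent.W711.CR

noncomputable section

/-- `ℓ²(G)` -/
abbrev L2 (G : Type) := lp (fun _ : G => ℂ) 2

variable {G : Type} [Group G]

theorem mem_trans (g : G) (f : L2 G) : Memℓp (E := fun _ : G => ℂ) (fun x => f (x * g)) 2 := by
  have h := lp.memℓp f
  rw [memℓp_gen_iff (by norm_num)] at h ⊢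
  exact (Equiv.mulRight g).summable_iff.mpr h

/-- right translation `(R g f)(x) = f (x g)` as a linear isometry -/
def Rt (g : G) : L2 G →ₗᵢ[ℂ] L2 G where
  toFun f := ⟨fun x => f (x * g), mem_trans g f⟩
  map_add' f f' := by
    apply Subtype.ext
    funext x
    rfl
  map_smul' c f := by
    apply Subtype.ext
    funext x
    rfl
  norm_map' f := by
    have h2 : 0 < (2 : ENNReal).toReal := by norm_num
    have h1 := lp.norm_rpow_eq_tsum h2 f
    have h3 := lp.norm_rpow_eq_tsum h2 (⟨fun x => f (x * g), mem_trans g f⟩ : L2 G)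
    have h4 : ∑' x : G, ‖f (x * g)‖ ^ (2 : ENNReal).toReal = ∑' x : G, ‖f x‖ ^ (2 : ENNReal).toReal :=
      (Equiv.mulRight g).tsum_eq (fun x => ‖f x‖ ^ (2 : ENNReal).toReal)
    have h5 := (h3.trans h4).trans h1.symm
    exact (Real.rpow_left_inj (norm_nonneg _) (norm_nonneg _) (by norm_num)).mp h5

theorem Rt_apply (g : G) (f : L2 G) (x : G) : (Rt g f) x = f (x * g) := rfl

/-- right translation as a continuous linear map -/
def R (g : G) : L2 G →L[ℂ] L2 G := (Rt g).toContinuousLinearMap

theorem R_apply (g : G) (f : L2 G) (x : G) : (R g f) x = f (x * g) := rfl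

theorem R_mul (g h : G) : R (g * h) = R g * R h := by
  ext f x
  change f (x * (g * h)) = f (x * g * h)
  rw [mul_assoc]

theorem mem_LG_iff (T : L2 G →L[ℂ] L2 G) : T ∈ LG G ↔ ∀ g : G, T * R g = R g * T := by
  constructor
  · intro hT g
    ext f x
    exact hT g f (R g f) (fun x => rfl) x
  · intro hT g f f' hf x
    have h1 : f' = R g f := by
      apply Subtype.ext
      funext y
      exact hf y
    have h2 := congrArg (fun S : L2 G →L[ℂ] L2 G => (S f) x) (hT g)
    rw [h1]
    exact h2

/-- `δ_g` -/
def dl [DecidableEq G] (g : G) : L2 G := lp.single 2 g (1 : ℂ)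

theorem dl_apply [DecidableEq G] (g x : G) : (dl g) x = if x = g then 1 else 0 := by
  unfold dl
  rw [lp.single_apply]
  simp [Pi.single_apply]

/-- the embedding of the group algebra -/
def emb [DecidableEq G] : (G →₀ ℂ) →ₗ[ℂ] L2 G := Finsupp.linearCombination ℂ dl

theorem emb_single [DecidableEq G] (g : G) (s : ℂ) : emb (Finsupp.single g s) = s • dl g := by
  simp [emb]

theorem emb_apply [DecidableEq G] (f : G →₀ ℂ) (x : G) : (emb f) x = f x := by
  induction f using Finsupp.induction_linear with
  | zero => simp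
  | add f g hf hg =>
    rw [map_add, lp.coeFn_add, Pi.add_apply, hf, hg, Finsupp.add_apply]
  | single g s =>
    rw [emb_single, lp.coeFn_smul, Pi.smul_apply, dl_apply, Finsupp.single_apply, smul_eq_mul]
    by_cases h : x = g
    · subst h; simp
    · rw [if_neg h, if_neg (Ne.symm h), mul_zero]

/-- right multiplication by `f` -/
def Rc : (G →₀ ℂ) →ₗ[ℂ] (L2 G →L[ℂ] L2 G) := Finsupp.linearCombination ℂ (fun g => R g⁻¹)

theorem Rc_single (g : G) (s : ℂ) : Rc (Finsupp.single g s) = s • R g⁻¹ := by
  simp [Rc]

/-- the product of the group algebra as in the statement -/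
def conv (f f' : G →₀ ℂ) : G →₀ ℂ :=
  f.sum fun x s => f'.sum fun y t => Finsupp.single (x * y) (s * t)

theorem conv_add_left (f g h : G →₀ ℂ) : conv (f + g) h = conv f h + conv g h := by
  classical
  unfold conv
  rw [Finsupp.sum_add_index']
  · intro a
    simp
  · intro a s t
    rw [← Finsupp.sum_add]
    refine Finsupp.sum_congr fun y _ => ?_
    rw [add_mul, Finsupp.single_add]

theorem conv_add_right (f g h : G →₀ ℂ) : conv f (g + h) = conv f g + conv f h := by
  classical
  unfold conv
  rw [← Finsupp.sum_add]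
  refine Finsupp.sum_congr fun x _ => ?_
  rw [Finsupp.sum_add_index']
  · intro a
    simp
  · intro a s t
    rw [mul_add, Finsupp.single_add]

theorem conv_zero_left (h : G →₀ ℂ) : conv 0 h = 0 := by simp [conv]

theorem conv_zero_right (f : G →₀ ℂ) : conv f 0 = 0 := by simp [conv]

theorem conv_single (x y : G) (s t : ℂ) :
    conv (Finsupp.single x s) (Finsupp.single y t) = Finsupp.single (x * y) (s * t) := by
  simp [conv]

theorem R_dl [DecidableEq G] (g x : G) : R g (dl x) = dl (x * g⁻¹) := by
  apply Subtype.ext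
  funext y
  change (R g (dl x)) y = (dl (x * g⁻¹)) y
  rw [R_apply, dl_apply, dl_apply]
  by_cases h : y * g = x
  · rw [if_pos h, if_pos (by rw [← h]; group)]
  · rw [if_neg h, if_neg (fun h' => h (by rw [h']; group))]

theorem Rc_emb [DecidableEq G] (f f' : G →₀ ℂ) : Rc f (emb f') = emb (conv f' f) := by
  induction f using Finsupp.induction_linear with
  | zero => simp [conv_zero_right]
  | add f g hf hg => rw [map_add, ContinuousLinearMap.add_apply, hf, hg, conv_add_right, map_add]
  | single g s =>
    induction f' using Finsupp.induction_linear with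
    | zero => simp [conv_zero_left]
    | add f f' hf hg => rw [map_add, map_add, hf, hg, conv_add_left, map_add]
    | single g' s' =>
      rw [conv_single, Rc_single, emb_single, emb_single, ContinuousLinearMap.smul_apply, map_smul,
        R_dl, inv_inv, smul_smul, mul_comm]

theorem inner_emb [DecidableEq G] (f f' : G →₀ ℂ) :
    inner ℂ (emb f) (emb f') = f'.sum fun x s => (starRingEnd ℂ) (f x) * s := by
  rw [lp.inner_eq_tsum]
  rw [tsum_eq_sum (s := f'.support)]
  · unfold Finsupp.sum
    refine Finset.sum_congr rfl fun x _ => ?_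
    rw [emb_apply, emb_apply]
    simp [mul_comm]
  · intro x hx
    rw [emb_apply, emb_apply, Finsupp.notMem_support_iff.mp hx]
    simp

theorem conv_one (f f' : G →₀ ℂ) : (conv f f') 1 = f'.sum fun y t => f y⁻¹ * t := by
  classical
  induction f' using Finsupp.induction_linear with
  | zero => simp [conv_zero_right]
  | add f1 f2 h1 h2 =>
    rw [conv_add_right, Finsupp.add_apply, h1, h2, Finsupp.sum_add_index']
    · intro a; simp
    · intro a s t; ring
  | single y t =>
    rw [Finsupp.sum_single_index (by simp)]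
    induction f using Finsupp.induction_linear with
    | zero => simp [conv_zero_left]
    | add f1 f2 h1 h2 =>
      rw [conv_add_left, Finsupp.add_apply, h1, h2, Finsupp.add_apply]; ring
    | single x s =>
      rw [conv_single, Finsupp.single_apply, Finsupp.single_apply]
      by_cases h : x = y⁻¹
      · subst h; simp
      · rw [if_neg h, if_neg (fun h' => h (eq_inv_of_mul_eq_one_left h')), zero_mul]

theorem ext_dl {E : Type} [NormedAddCommGroup E] [NormedSpace ℂ E] [DecidableEq G]
    (S T : L2 G →L[ℂ] E) (h : ∀ g : G, S (dl g) = T (dl g)) : S = T := by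
  apply ContinuousLinearMap.ext
  intro f
  have h4 := lp.hasSum_single (p := 2) (by norm_num) f
  have h5 := h4.mapL S
  have h6 := h4.mapL T
  have h7 : (fun i : G => S (lp.single 2 i (f i))) = fun i : G => T (lp.single 2 i (f i)) := by
    funext i
    have h8 : (lp.single 2 i (f i) : L2 G) = (f i) • dl i := by
      unfold dl
      rw [← lp.single_smul]
      simp
    rw [h8, map_smul, map_smul, h i]
  rw [h7] at h5
  exact h5.unique h6

theorem comm_Rc (T : L2 G →L[ℂ] L2 G) (hT : T ∈ LG G) (f : G →₀ ℂ) : T * Rc f = Rc f * T := by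
  rw [mem_LG_iff] at hT
  induction f using Finsupp.induction_linear with
  | zero => simp
  | add f g hf hg => rw [map_add, mul_add, hf, hg, add_mul]
  | single g s => rw [Rc_single, mul_smul_comm, hT, smul_mul_assoc]

theorem L : P_L := by
  intro G H _ _ c c1 cmul cstar c0 cspan
  classical
  have cmul' : ∀ h h' : H, c (h * h') = conv (c h) (c h') := cmul
  -- orthonormality
  have horth : ∀ h h' : H, inner ℂ (emb (c h)) (emb (c h')) = if h = h' then (1 : ℂ) else 0 := by
    intro h h'
    have h1 : inner ℂ (emb (c h)) (emb (c h')) = (c (h⁻¹ * h')) 1 := by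
      rw [inner_emb, cmul', conv_one]
      refine Finsupp.sum_congr fun x _ => ?_
      rw [cstar, inv_inv]
    rw [h1]
    by_cases hh : h = h'
    · subst hh
      rw [inv_mul_cancel, c1, if_pos rfl]
      simp
    · rw [if_neg hh]
      exact c0 _ (fun h2 => hh (inv_mul_eq_one.mp h2))
  have horth' : Orthonormal ℂ (fun h : H => emb (c h)) := by
    rw [orthonormal_iff_ite]
    exact horth
  -- density
  have hdense : ⊤ ≤ (Submodule.span ℂ (Set.range (fun h : H => emb (c h)))).topologicalClosure := by
    have h1 : ∀ f : G →₀ ℂ, emb f ∈ Submodule.span ℂ (Set.range (fun h : H => emb (c h))) := by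
      intro f
      have h2 : f ∈ Submodule.span ℂ (Set.range c) := by rw [cspan]; trivial
      have h3 := Submodule.apply_mem_span_image_of_mem_span emb h2
      rw [← Set.range_comp] at h3
      exact h3
    intro f _
    have h4 := lp.hasSum_single (p := 2) (by norm_num) f
    rw [← SetLike.mem_coe, Submodule.topologicalClosure_coe]
    refine mem_closure_of_tendsto h4 (Filter.Eventually.of_forall fun s => ?_)
    refine Submodule.sum_mem _ fun i _ => ?_
    have h5 := h1 (Finsupp.single i (f i))
    rw [emb_single] at h5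
    have h6 : (f i) • dl i = lp.single 2 i (f i) := by
      unfold dl
      rw [← lp.single_smul]
      simp
    rw [h6] at h5
    exact h5
  let B : HilbertBasis H ℂ (L2 G) := HilbertBasis.mk horth' hdense
  let U : L2 G ≃ₗᵢ[ℂ] L2 H := B.repr
  have hU : ∀ h : H, U.symm (dl h) = emb (c h) := by
    intro h
    have h1 := B.repr_symm_single h
    have h2 : B h = emb (c h) := by
      have := HilbertBasis.coe_mk horth' hdense
      exact congrFun this h
    rw [← h2, ← h1]
    rfl
  -- as continuous linear maps
  let Uc : L2 G →L[ℂ] L2 H := U.toContinuousLinearEquiv.toContinuousLinearMap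
  let Vc : L2 H →L[ℂ] L2 G := U.symm.toContinuousLinearEquiv.toContinuousLinearMap
  have hUV : ∀ f, Uc (Vc f) = f := fun f => U.apply_symm_apply f
  have hVU : ∀ f, Vc (Uc f) = f := fun f => U.symm_apply_apply f
  have hV : ∀ h : H, Vc (dl h) = emb (c h) := hU
  -- intertwining
  have hint : ∀ (h : H) (f : L2 H), Vc (R h f) = Rc (c h⁻¹) (Vc f) := by
    intro h f
    have h1 : Vc ∘L R h = Rc (c h⁻¹) ∘L Vc := by
      apply ext_dl
      intro h'
      change Vc (R h (dl h')) = Rc (c h⁻¹) (Vc (dl h'))
      rw [R_dl, hV, hV, Rc_emb, cmul']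
    exact congrArg (fun S : L2 H →L[ℂ] L2 G => S f) h1
  have hint' : ∀ (h : H) (f : L2 G), R h (Uc f) = Uc (Rc (c h⁻¹) f) := by
    intro h f
    have h1 := hint h (Uc f)
    rw [hVU] at h1
    rw [← h1, hUV]
  refine ⟨fun T => Uc ∘L T ∘L Vc, ⟨?_, ?_, ?_⟩, ?_⟩
  · intro T hT
    rw [mem_LG_iff]
    intro h
    apply ContinuousLinearMap.ext
    intro f
    change Uc (T (Vc (R h f))) = R h (Uc (T (Vc f)))
    rw [hint, hint']
    have h1 := congrArg (fun S : L2 G →L[ℂ] L2 G => S (Vc f)) (comm_Rc T hT (c h⁻¹))
    exact congrArg Uc h1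
  · intro T hT T' hT' hTT'
    apply ContinuousLinearMap.ext
    intro f
    have h1 := congrArg (fun S : L2 H →L[ℂ] L2 H => Vc (S (Uc f))) hTT'
    have h2 : Vc (Uc (T (Vc (Uc f)))) = Vc (Uc (T' (Vc (Uc f)))) := h1
    rw [hVU, hVU, hVU] at h2
    exact h2
  · intro T hT
    refine ⟨Vc ∘L T ∘L Uc, ?_, ?_⟩
    · have hT' := (mem_LG_iff T).mp hT
      have h1 : ∀ (f : G →₀ ℂ) (ξ : L2 G), Vc (T (Uc (Rc f ξ))) = Rc f (Vc (T (Uc ξ))) := by
        intro f ξ
        have hf : f ∈ Submodule.span ℂ (Set.range c) := by rw [cspan]; trivial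
        induction hf using Submodule.span_induction with
        | mem f hf =>
          obtain ⟨h, rfl⟩ := hf
          have h2 := hint' h⁻¹ ξ
          rw [inv_inv] at h2
          rw [← h2]
          have h3 := congrArg (fun S : L2 H →L[ℂ] L2 H => S (Uc ξ)) (hT' h⁻¹)
          have h4 : T (R h⁻¹ (Uc ξ)) = R h⁻¹ (T (Uc ξ)) := h3
          rw [h4, hint, inv_inv]
        | zero => simp
        | add f g _ _ hf hg =>
          simp only [map_add, ContinuousLinearMap.add_apply] at hf hg ⊢
          rw [hf, hg]
        | smul a f _ hf =>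
          simp only [map_smul, ContinuousLinearMap.smul_apply] at hf ⊢
          rw [hf]
      rw [mem_LG_iff]
      intro g
      apply ContinuousLinearMap.ext
      intro ξ
      have h2 := h1 (Finsupp.single g⁻¹ 1) ξ
      rw [Rc_single, one_smul, inv_inv] at h2
      exact h2
    · apply ContinuousLinearMap.ext
      intro f
      change Uc (Vc (T (Uc (Vc f)))) = T f
      rw [hUV, hUV]
  · intro x hx y hy
    refine ⟨?_, ?_, ?_, ?_⟩
    · apply ContinuousLinearMap.ext
      intro f
      change Uc ((x + y) (Vc f)) = Uc (x (Vc f)) + Uc (y (Vc f))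
      rw [ContinuousLinearMap.add_apply, map_add]
    · apply ContinuousLinearMap.ext
      intro f
      change Uc (x (y (Vc f))) = Uc (x (Vc (Uc (y (Vc f)))))
      rw [hVU]
    · rw [ContinuousLinearMap.star_eq_adjoint, ContinuousLinearMap.star_eq_adjoint,
        ContinuousLinearMap.eq_adjoint_iff]
      intro f f'
      change inner ℂ (U ((ContinuousLinearMap.adjoint x) (U.symm f))) f'
        = inner ℂ f (U (x (U.symm f')))
      rw [LinearIsometryEquiv.inner_map_eq_flip, ContinuousLinearMap.adjoint_inner_left,
        U.symm.inner_map_eq_flip, LinearIsometryEquiv.symm_symm]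
    · intro a
      apply ContinuousLinearMap.ext
      intro f
      change Uc ((a • x) (Vc f)) = a • Uc (x (Vc f))
      rw [ContinuousLinearMap.smul_apply, map_smul]

end

end Pool.Agent.W194.CR
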